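import Pool.Agent.H6.G9.Targets3

/-!
# Theorem (H0), MP_c59857_nt: absolute constants for all lengths, statements

Restricted families: for every prime of the level either all exponentials are near to frequencies
which do not depend on the prime, or the sum of exponentials is not small in mean square.
-/

set_option autoImplicit false

namespace Pool.Agent.H6.G0

open Finset Pool.Agent.H6.N4D Pool.Agent.H93 Pool.Agent.H93.GS Pool.Agent.H6.GS2 Pool.Agent.H6.G9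

/-! ## definitions -/

/-- restricted families of the level `m` on the window `(n, n + 2 ^ m]`: `P` frequencies for every
prime, coefficients at most `P`, `P` anchors, radius `P / 2 ^ m` -/
structure AdR (P m n : ℕ) (φ : ℕ → ℕ → ℝ) (u : ℕ → ℕ → ℂ) : Prop where
  ad : Adm m P P φ u
  nf : ∃ γ : ℕ → ℝ, ∀ q ∈ EB.QQ m,
    (∀ j < P, u j q ≠ 0 → ∃ i < P, nd (φ j q - γ i) ≤ (P : ℝ) / 2 ^ m) ∨
    1 / ((P : ℝ) + 1) ≤ ar 1 (2 ^ m) n (fun x => ‖(fam P φ u q).f x‖ ^ 2)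

/-- the largest value of the functional on the window for restricted families -/
noncomputable def UBr (lam : ℕ → ℝ) (P m n : ℕ) : ℝ :=
  sSup {x | ∃ (φ : ℕ → ℕ → ℝ) (u : ℕ → ℕ → ℂ), AdR P m n φ u ∧ x = fv lam m n P φ u}

/-! ## one window -/

/-- UBR. Use of `UBr`. -/
def T_UBR : Prop := ∀ P : ℕ, ∃ (m₁ : ℕ) (C : ℝ), 0 < C ∧ ∀ (lam : ℕ → ℝ)
  (m n : ℕ), m₁ ≤ m → (∀ n, |lam n| ≤ 1) → 0 ≤ UBr lam P m n ∧ UBr lam P m n ≤ C ∧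
    (∀ φ u, AdR P m n φ u → fv lam m n P φ u ≤ UBr lam P m n) ∧
    (∀ ε : ℝ, 0 < ε → ∃ φ u, AdR P m n φ u ∧ UBr lam P m n ≤ fv lam m n P φ u + ε) ∧
    ∀ P' ≤ P, UBr lam P' m n ≤ UBr lam P m n

/-- UXR. The energies on the multiples of the primes of the level, one window. -/
def T_UXR : Prop := ∀ th : ℝ, 0 < th → th ≤ 1 → ∃ (κ C : ℝ) (p₀ P m₁ : ℕ), 0 < κ ∧
  0 < C ∧ 4 * p₀ ≤ m₁ ∧ ∀ (lam : ℕ → ℝ) (m n : ℕ) (g : Ex), m₁ ≤ m → (∀ m, |lam m| ≤ 1) →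
  Opt th lam 1 (2 ^ m) n g → Dst 1 g → gap th lam (2 ^ p₀) (2 ^ (m - p₀)) n ≤ κ →
  ∑ q ∈ EB.QQ m, 1 / (q : ℝ) * (En th lam q (2 ^ m) n - En th lam 1 (2 ^ m) n -
      lin lam q (2 ^ m) n g) ≤
    UBr lam P m n + C * (∑ q ∈ EB.QQ m, 1 / (q : ℝ) *
      EB.ind (κ < gapq th lam q (2 ^ p₀) (2 ^ (m - p₀)) n) + (1 / 2) ^ (m / 1000))

/-- U2R. The linear terms of two sums. -/
def T_U2R : Prop := ∀ (k : ℕ) (B : ℝ), 0 ≤ B → ∃ (C : ℝ) (P m₁ : ℕ), 0 < C ∧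
  ∀ (η : ℝ) (lam : ℕ → ℝ) (m n : ℕ) (g h : Ex), 0 < η → η ≤ 1 → m₁ ≤ m → (∀ m, |lam m| ≤ 1) →
  g.k ≤ k → h.k ≤ k → g.nm ≤ B → h.nm ≤ B →
  ∑ q ∈ EB.QQ m, 1 / (q : ℝ) * |lin lam q (2 ^ m) n g - lin lam q (2 ^ m) n h| ≤
    η * (∑ q ∈ EB.QQ m, 1 / (q : ℝ)) * d2 1 (2 ^ m) n g h + 1 / η * UBr lam P m n +
      C * (1 / 2) ^ (m / 1000)

/-- ONR. A window of length `2 ^ (p + m)` and its pieces of length `2 ^ m`. -/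
def T_ONR : Prop := ∀ th : ℝ, 0 < th → th ≤ 1 → ∃ (κ C : ℝ) (p₀ P m₁ : ℕ), 0 < κ ∧
  0 < C ∧ 4 * p₀ ≤ m₁ ∧ ∀ (η : ℝ) (p m n : ℕ) (lam : ℕ → ℝ), 0 < η → η ≤ 1 → m₁ ≤ m →
    (∀ m, |lam m| ≤ 1) →
    ∑ q ∈ EB.QQ m, 1 / (q : ℝ) * gapq th lam q (2 ^ p) (2 ^ m) n ≤
      (1 + η) * (∑ q ∈ EB.QQ m, 1 / (q : ℝ)) * gap th lam (2 ^ p) (2 ^ m) n +
      2 / η * ((∑ j ∈ range (2 ^ p), UBr lam P m (n + j * 2 ^ m)) / (2 ^ p : ℕ)) +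
      C / η * ((∑ j ∈ range (2 ^ p),
          (EB.ind (κ < gap th lam (2 ^ p₀) (2 ^ (m - p₀)) (n + j * 2 ^ m)) +
          ∑ q ∈ EB.QQ m, 1 / (q : ℝ) *
            EB.ind (κ < gapq th lam q (2 ^ p₀) (2 ^ (m - p₀)) (n + j * 2 ^ m)))) / (2 ^ p : ℕ) +
        EB.ind (κ < gap th lam (2 ^ p₀) (2 ^ (p + m - p₀)) n) + (1 / 2) ^ (m / 1000))

/-! ## one level, logarithmic means -/

/-- LVR. The inequality of one level; the constant `C₀` is absolute. -/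
def T_LVR : Prop := ∃ C₀ : ℝ, 0 < C₀ ∧ ∀ th : ℝ, 0 < th → th ≤ 1 → ∃ (C : ℝ) (p₀ P m₁ : ℕ),
  0 < C ∧ 4 * p₀ ≤ m₁ ∧ ∀ (η : ℝ) (D X m : ℕ) (lam : ℕ → ℝ), 0 < η → η ≤ 1 → 2 ≤ D →
    3 ≤ X → m₁ ≤ m → Lio lam →
    EB.lg X (fun n => En th lam 1 (2 ^ (m - m / 500)) n) -
        EB.lg X (fun n => En th lam 1 (2 ^ (D * m - m / 100)) n) ≤
      (1 + η) * (EB.lg X (fun n => En th lam 1 (2 ^ m) n) -
        EB.lg X (fun n => En th lam 1 (2 ^ (D * m)) n)) +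
      C₀ / η * EB.lg X (fun n => UBr lam P m n) +
      C / η * (gm th lam X p₀ m + gmq th lam X p₀ m + gm th lam X p₀ (D * m) +
        (1 / 2) ^ (m / 2000) * Real.log X + 3 * (D * m + 1))

/-! ## the inequality of Bessel -/

/-- BSR. The inequality of Bessel for the functional `UBr` below the logarithm; the constant `C₀`
is absolute, there is no condition on the number `K` of the levels. -/
def T_BSR : Prop := ∃ (B : ℕ) (C₀ : ℝ), 1 ≤ B ∧ 0 < C₀ ∧ ∀ (R P : ℕ) (ε : ℝ), 0 < ε →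
  ∃ s₀ : ℕ, ∀ s, s₀ ≤ s → ∃ X₀ : ℕ, ∀ (X K : ℕ) (lam : ℕ → ℝ) (e : ℝ) (m : ℕ → ℕ), X₀ ≤ X →
    Lio lam → 0 ≤ e → EB.Base lam R (2 ^ s) e X → B * s ≤ m 0 →
    (∀ i, i + 1 < K → B * m i ≤ m (i + 1)) → (∀ i < K, (4 : ℝ) ^ m i ≤ Real.log X) →
    ∑ i ∈ range K, EB.lg X (fun n => UBr lam P (m i) n) ≤ (C₀ * e + ε) * Real.log X

end Pool.Agent.H6.G0
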